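import Pool.Agent.H63.Star.Iface2

/-! Module C4 (ConstStmt) for MP_bd4439_gt, blueprint of helper63. -/

set_option autoImplicit false

namespace Pool.Agent.H67.Star

open Set Filter Topology
open scoped RealInnerProductSpace
open Pool.Agent.H63.Star

theorem indep_three {E : Type*} [NormedAddCommGroup E] [InnerProductSpace ℝ E]
    (h3 : 3 ≤ Module.finrank ℝ E) {u : E} (hu : u ≠ 0) :
    ∃ w₁ w₂ : E, LinearIndependent ℝ ![u, w₁, w₂] := by
  have h1 : LinearIndependent ℝ ![u] := by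
    rw [linearIndependent_unique_iff]
    simpa using hu
  obtain ⟨w₁, hw₁⟩ := exists_linearIndependent_snoc_of_lt_finrank h1 (by omega)
  obtain ⟨w₂, hw₂⟩ := exists_linearIndependent_snoc_of_lt_finrank hw₁ (by omega)
  refine ⟨w₁, w₂, ?_⟩
  have hvec : (![u, w₁, w₂] : Fin 3 → E) = Fin.snoc (Fin.snoc ![u] w₁ : Fin 2 → E) w₂ := by
    funext i
    fin_cases i <;> rfl
  rw [hvec]
  exact hw₂

/-- The ratio is locally constant on `B` where it is different from `c₀`. -/
theorem const_local {E : Type*} [NormedAddCommGroup E] [InnerProductSpace ℝ E]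
    [FiniteDimensional ℝ E] {F G : E → ℝ} (hF : IsGauge F) (hG : IsGauge G) (hP : Planar F G)
    (h3 : 3 ≤ Module.finrank ℝ E) (c₀ : ℝ) (ν : E →ₗ[ℝ] ℝ) (B : Set E)
    (hc₀ : ∀ u, u ≠ 0 → F u / G u = F (-u) / G (-u) → F u / G u = c₀)
    (hB : IsOpen B) (h0 : (0 : E) ∉ B) (hν : ∀ z ∈ B, G z = ν z) {y : E} (hy : y ∈ B)
    (hr : F y / G y ≠ c₀) : ∀ᶠ z in 𝓝 y, F z / G z = F y / G y := by
  have hy0 : y ≠ 0 := fun h => h0 (h ▸ hy)
  have hνc : Continuous ν := ν.continuous_of_finiteDimensional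
  obtain ⟨w₁, w₂, hw⟩ := indep_three h3 hy0
  obtain ⟨s, t, -, hli, a, hc⟩ := exists_cen hP hF hG hw
  obtain ⟨w₀, hw₀⟩ : ∃ w₀ : E, w₀ = s • w₁ + t • w₂ := ⟨_, rfl⟩
  rw [← hw₀] at hli hc
  have hrel := hP.rel hli
  rw [hc] at hrel
  have hyS : y ∈ Submodule.span ℝ {y, w₀} := Submodule.subset_span (by simp)
  obtain ⟨hd1, -⟩ := hrel.cen_data hF hG hy0 hyS
  have hFy := hF.pos y hy0
  have hGy := hG.pos y hy0
  set x : E × E → E := fun p => ctr F G p.1 p.2 with hx
  set l : E × E → ℝ := fun p => rat F G p.1 p.2 with hl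
  set μ : E × E → ℝ := fun p => ν (x p) + l p with hμ
  have hxc : ContinuousAt x (y, w₀) := ctr_cont hP hF hG hli
  have hlc : ContinuousAt l (y, w₀) := rat_cont hP hF hG hli
  have hμc : ContinuousAt μ (y, w₀) := (hνc.continuousAt.comp hxc).add hlc
  have hl0 : 0 < l (y, w₀) := rat_pos _ _ _ _
  have hx0 : x (y, w₀) = a • y := hc
  have hμ0 : μ (y, w₀) = G y / F y := by
    simp only [hμ]
    rw [hx0, map_smul, ← hν y hy, smul_eq_mul]
    exact hd1
  have hμpos : 0 < μ (y, w₀) := by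
    rw [hμ0]
    positivity
  set zz : (E × E) × E → E := fun p => (l p.1)⁻¹ • (μ p.1 • p.2 - ν p.2 • x p.1) with hzz
  have hzc : ContinuousAt zz ((y, w₀), y) := by
    have f1 : ContinuousAt (fun p : (E × E) × E => l p.1) ((y, w₀), y) :=
      ContinuousAt.comp (f := fun p : (E × E) × E => p.1) (g := l) hlc continuousAt_fst
    have f2 : ContinuousAt (fun p : (E × E) × E => μ p.1) ((y, w₀), y) :=
      ContinuousAt.comp (f := fun p : (E × E) × E => p.1) (g := μ) hμc continuousAt_fst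
    have f3 : ContinuousAt (fun p : (E × E) × E => x p.1) ((y, w₀), y) :=
      ContinuousAt.comp (f := fun p : (E × E) × E => p.1) (g := x) hxc continuousAt_fst
    have f4 : ContinuousAt (fun p : (E × E) × E => ν p.2) ((y, w₀), y) :=
      (hνc.comp continuous_snd).continuousAt
    exact (f1.inv₀ hl0.ne').smul ((f2.smul continuousAt_snd).sub (f4.smul f3))
  have hz0 : zz ((y, w₀), y) = y := by
    simp only [hzz]
    rw [hx0]
    simp only [hμ]
    rw [hx0, map_smul, smul_eq_mul]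
    have : (a * ν y + l (y, w₀)) • y - ν y • a • y = l (y, w₀) • y := by module
    rw [this, smul_smul, inv_mul_cancel₀ hl0.ne', one_smul]
  have hgood : ∀ᶠ p : (E × E) × E in 𝓝 ((y, w₀), y),
      (LinearIndependent ℝ ![p.1.1, p.1.2] ∧ 0 < μ p.1) ∧ (zz p ∈ B ∧ p.2 ∈ B) := by
    have g1 : ∀ᶠ p : E × E in 𝓝 (y, w₀), LinearIndependent ℝ ![p.1, p.2] ∧ 0 < μ p :=
      (indep_iff_eventually hli).and (hμc.eventually (lt_mem_nhds hμpos))
    have g2 : ∀ᶠ p : (E × E) × E in 𝓝 ((y, w₀), y), zz p ∈ B := by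
      apply hzc.eventually
      rw [hz0]
      exact hB.mem_nhds hy
    have g3 : ∀ᶠ p : (E × E) × E in 𝓝 ((y, w₀), y), p.2 ∈ B :=
      continuousAt_snd.eventually (hB.mem_nhds hy)
    have g4 : ∀ᶠ p : (E × E) × E in 𝓝 ((y, w₀), y),
        LinearIndependent ℝ ![p.1.1, p.1.2] ∧ 0 < μ p.1 := by
      have hfst : Tendsto (fun p : (E × E) × E => p.1) (𝓝 ((y, w₀), y)) (𝓝 (y, w₀)) :=
        continuousAt_fst
      exact hfst.eventually g1
    exact g4.and (g2.and g3)
  have hkey : ∀ p : (E × E) × E, (LinearIndependent ℝ ![p.1.1, p.1.2] ∧ 0 < μ p.1) ∧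
      (zz p ∈ B ∧ p.2 ∈ B) → p.2 ∈ Submodule.span ℝ {p.1.1, p.1.2} →
      F p.2 / G p.2 = (μ p.1)⁻¹ := by
    rintro ⟨⟨y', w⟩, u⟩ ⟨⟨hli', hμ'⟩, hzB, huB⟩ huS
    simp only at hli' hμ' hzB huB huS ⊢
    have hrel' := hP.rel hli'
    have hl' : 0 < l (y', w) := rat_pos _ _ _ _
    have hxS : x (y', w) ∈ Submodule.span ℝ {y', w} := ctr_mem _ _ _ _
    have hzS : zz ((y', w), u) ∈ Submodule.span ℝ {y', w} := by
      simp only [hzz]
      exact Submodule.smul_mem _ _ (Submodule.sub_mem _ (Submodule.smul_mem _ _ huS)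
        (Submodule.smul_mem _ _ hxS))
    have hmap := hrel'.map hF hG hzS
    have hGz : G (zz ((y', w), u)) = G u := by
      rw [hν _ hzB, hν _ huB]
      simp only [hzz]
      rw [map_smul, map_sub, map_smul, map_smul]
      simp only [smul_eq_mul, hμ]
      field_simp
      ring
    rw [hGz] at hmap
    have e : G u • ctr F G y' w + rat F G y' w • zz ((y', w), u) = μ (y', w) • u := by
      have e1 : rat F G y' w • zz ((y', w), u) = μ (y', w) • u - ν u • x (y', w) := by
        simp only [hzz]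
        rw [smul_smul]
        have : rat F G y' w * (l (y', w))⁻¹ = 1 := mul_inv_cancel₀ hl'.ne'
        rw [this, one_smul]
      rw [e1, hν u huB]
      simp only [hx]
      module
    rw [e, hF.hom _ _ hμ'.le] at hmap
    have hu0 : u ≠ 0 := fun h => h0 (h ▸ huB)
    have hGu := hG.pos u hu0
    rw [eq_comm, inv_eq_iff_eq_inv, inv_div, eq_div_iff (hF.pos u hu0).ne']
    exact hmap
  obtain ⟨ε, hε, hball⟩ := Metric.eventually_nhds_iff_ball.1 hgood
  -- choice of the step
  obtain ⟨δ, hδ, hδw⟩ : ∃ δ : ℝ, 0 < δ ∧ δ * ‖w₀‖ < ε := by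
    refine ⟨ε / (‖w₀‖ + 1), by positivity, ?_⟩
    rw [div_mul_eq_mul_div, div_lt_iff₀ (by positivity)]
    nlinarith [norm_nonneg w₀]
  have hu3 : dist (y + δ • w₀) y < ε := by
    rw [dist_eq_norm, add_sub_cancel_left, norm_smul, Real.norm_of_nonneg hδ.le]
    exact hδw
  have hmem3 : (y + δ • w₀) ∈ Submodule.span ℝ {y, w₀} :=
    Submodule.add_mem _ hyS (Submodule.smul_mem _ _ (Submodule.subset_span (by simp)))
  have r1 : F y / G y = (μ (y, w₀))⁻¹ :=
    hkey ((y, w₀), y) (hball _ (Metric.mem_ball_self hε)) hyS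
  have r3 : F (y + δ • w₀) / G (y + δ • w₀) = (μ (y, w₀))⁻¹ := by
    refine hkey ((y, w₀), y + δ • w₀) (hball _ ?_) hmem3
    rw [Metric.mem_ball, Prod.dist_eq, dist_self]
    exact max_lt hε hu3
  rw [Metric.eventually_nhds_iff_ball]
  refine ⟨min ε (δ * ε), lt_min hε (by positivity), fun u hu => ?_⟩
  rw [Metric.mem_ball, lt_min_iff] at hu
  have hwd : dist (w₀ + δ⁻¹ • (y - u)) w₀ < ε := by
    rw [dist_eq_norm, add_sub_cancel_left, norm_smul, norm_inv, Real.norm_of_nonneg hδ.le,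
      ← dist_eq_norm, dist_comm, inv_mul_lt_iff₀ hδ]
    exact hu.2
  have q1 : F u / G u = (μ (u, w₀ + δ⁻¹ • (y - u)))⁻¹ := by
    refine hkey ((u, w₀ + δ⁻¹ • (y - u)), u) (hball _ ?_) (Submodule.subset_span (by simp))
    rw [Metric.mem_ball, Prod.dist_eq, Prod.dist_eq]
    exact max_lt (max_lt hu.1 hwd) hu.1
  have q3 : F (y + δ • w₀) / G (y + δ • w₀) = (μ (u, w₀ + δ⁻¹ • (y - u)))⁻¹ := by
    refine hkey ((u, w₀ + δ⁻¹ • (y - u)), y + δ • w₀) (hball _ ?_) ?_
    · rw [Metric.mem_ball, Prod.dist_eq, Prod.dist_eq]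
      exact max_lt (max_lt hu.1 hwd) hu3
    · have e : y + δ • w₀ = u + δ • (w₀ + δ⁻¹ • (y - u)) := by
        rw [smul_add, smul_smul, mul_inv_cancel₀ hδ.ne', one_smul]
        abel
      rw [e]
      exact Submodule.add_mem _ (Submodule.subset_span (by simp))
        (Submodule.smul_mem _ _ (Submodule.subset_span (by simp)))
  rw [q1, r1, ← q3, ← r3]

/-- Module C4. -/
theorem const : ConstStmt := by
  intro E _ _ _ F G hF hG hP h3 c₀ ν B hc₀ hB hpre h0 hν
  have hcont : ContinuousOn (fun z => F z / G z) B := by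
    apply hF.cont.continuousOn.div hG.cont.continuousOn
    intro z hz
    exact (hG.pos z (fun h => h0 (h ▸ hz))).ne'
  have main : ∀ y ∈ B, F y / G y ≠ c₀ → ∀ z ∈ B, F z / G z = F y / G y := by
    intro y hy hyc
    have : PreconnectedSpace B := Subtype.preconnectedSpace hpre
    have hclopen : IsClopen {z : B | F (z : E) / G (z : E) = F y / G y} := by
      constructor
      · exact isClosed_eq (continuousOn_iff_continuous_domRestrict.1 hcont) continuous_const
      · rw [isOpen_iff_mem_nhds]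
        rintro ⟨z, hz⟩ hzr
        have hzr' : F z / G z = F y / G y := hzr
        have hl := const_local hF hG hP h3 c₀ ν B hc₀ hB h0 hν hz (by rw [hzr']; exact hyc)
        have hl2 := (continuous_subtype_val.continuousAt (x := (⟨z, hz⟩ : B))).eventually hl
        filter_upwards [hl2] with w hw
        show F (w : E) / G (w : E) = F y / G y
        rw [hw]
        exact hzr'
    have huniv := hclopen.eq_univ ⟨⟨y, hy⟩, rfl⟩
    intro z hz
    have : (⟨z, hz⟩ : B) ∈ {z : B | F (z : E) / G (z : E) = F y / G y} := by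
      rw [huniv]
      trivial
    exact this
  intro y hy z hz
  by_cases hyc : F y / G y = c₀
  · by_cases hzc : F z / G z = c₀
    · rw [hyc, hzc]
    · exact main z hz hzc y hy
  · exact (main y hy hyc z hz).symm

end Pool.Agent.H67.Star
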