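import Pool.Agent.H63.Star.Iface2

/-! Module D1 (HyperStmt) for MP_bd4439_gt, blueprint of helper63. -/

set_option autoImplicit false

namespace Pool.Agent.H67.Star

open Set Filter Topology
open scoped RealInnerProductSpace
open Pool.Agent.H63.Star

/-- An odd function on a connected sphere, continuous there, has a zero. -/
theorem odd_zero {V : Type*} [NormedAddCommGroup V] [NormedSpace ℝ V] (h2 : 1 < Module.rank ℝ V)
    (f : V → ℝ) (hc : ContinuousOn f (Metric.sphere 0 1))
    (hodd : ∀ p ∈ Metric.sphere (0 : V) 1, f (-p) = -f p) :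
    ∃ p ∈ Metric.sphere (0 : V) 1, f p = 0 := by
  have hpre : IsPreconnected (Metric.sphere (0 : V) 1) := isPreconnected_sphere h2 0 1
  have : Nontrivial V := by
    rw [← rank_pos_iff_nontrivial (R := ℝ)]
    exact lt_trans zero_lt_one h2
  obtain ⟨p, hp⟩ := exists_norm_eq V (show (0 : ℝ) ≤ 1 from zero_le_one)
  have hpm : p ∈ Metric.sphere (0 : V) 1 := by rw [mem_sphere_zero_iff_norm, hp]
  have hnm : -p ∈ Metric.sphere (0 : V) 1 := by rw [mem_sphere_zero_iff_norm, norm_neg, hp]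
  rcases le_total (f p) 0 with h | h
  · obtain ⟨q, hq, hq0⟩ := hpre.intermediate_value hpm hnm hc
      (show (0 : ℝ) ∈ Icc (f p) (f (-p)) from ⟨h, by rw [hodd p hpm]; linarith⟩)
    exact ⟨q, hq, hq0⟩
  · obtain ⟨q, hq, hq0⟩ := hpre.intermediate_value hnm hpm hc
      (show (0 : ℝ) ∈ Icc (f (-p)) (f p) from ⟨by rw [hodd p hpm]; linarith, h⟩)
    exact ⟨q, hq, hq0⟩

section

variable {E : Type*} [NormedAddCommGroup E] [InnerProductSpace ℝ E] [FiniteDimensional ℝ E]
  {F G : E → ℝ}

/-- The linear map `(a, t) ↦ a + t p` on `W × ℝ`. -/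
noncomputable def Ph (W : Submodule ℝ E) (p : Wᗮ) : W × ℝ →ₗ[ℝ] E :=
  W.subtype.coprod (LinearMap.toSpanSingleton ℝ E (p : E))

omit [FiniteDimensional ℝ E] in
theorem Ph_apply (W : Submodule ℝ E) (p : Wᗮ) (z : W × ℝ) :
    Ph W p z = (z.1 : E) + z.2 • (p : E) := by
  simp [Ph]

omit [FiniteDimensional ℝ E] in
theorem Ph_cont (W : Submodule ℝ E) :
    Continuous fun q : Wᗮ × (W × ℝ) => Ph W q.1 q.2 := by
  simp only [Ph_apply]
  fun_prop

omit [FiniteDimensional ℝ E] in
theorem Ph_ne (W : Submodule ℝ E) {p : Wᗮ} (hp : p ≠ 0) (v : W × ℝ) (hv : v ≠ 0) :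
    Ph W p v ≠ 0 := by
  intro h0
  rw [Ph_apply] at h0
  have hp0 : (p : E) ≠ 0 := fun h => hp (Subtype.ext h)
  have h1 : ⟪(v.1 : E), (p : E)⟫ = 0 := (Submodule.mem_orthogonal W (p : E)).1 p.2 _ v.1.2
  have h2 : v.2 = 0 := by
    have h3 : ⟪(p : E), (v.1 : E) + v.2 • (p : E)⟫ = 0 := by rw [h0, inner_zero_right]
    rw [inner_add_right, inner_smul_right, real_inner_comm, h1, zero_add,
      real_inner_self_eq_norm_sq] at h3
    rcases mul_eq_zero.1 h3 with h | h
    · exact h
    · exact absurd (pow_eq_zero_iff (two_ne_zero) |>.1 h) (norm_ne_zero_iff.2 hp0)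
  rw [h2, zero_smul, add_zero] at h0
  exact hv (Prod.ext (Subtype.ext h0) h2)

theorem exists_bigger (hF : IsGauge F) (hG : IsGauge G)
    (hV : ∀ V : Submodule ℝ E, 2 ≤ Module.finrank ℝ V →
      Module.finrank ℝ V < Module.finrank ℝ E → ∃ (x : E) (l : ℝ), Rel F G V x l)
    (W : Submodule ℝ E) (hW2 : 2 ≤ Module.finrank ℝ W)
    (hWn : Module.finrank ℝ W + 1 < Module.finrank ℝ E) (l₀ : ℝ) (hW : Rel F G W 0 l₀) :
    ∃ W' : Submodule ℝ E, Module.finrank ℝ W' = Module.finrank ℝ W + 1 ∧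
      ∃ l : ℝ, Rel F G W' 0 l := by
  classical
  have hWbot : W ≠ ⊥ := by
    intro h
    rw [h, finrank_bot] at hW2
    omega
  have : Nontrivial W := Submodule.nontrivial_iff_ne_bot.2 hWbot
  have hfin : ∀ p : Wᗮ, p ≠ 0 →
      Module.finrank ℝ (LinearMap.range (Ph W p)) = Module.finrank ℝ W + 1 := by
    intro p hp
    rw [LinearMap.finrank_range_of_inj]
    · rw [Module.finrank_prod, Module.finrank_self]
    · rw [injective_iff_map_eq_zero]
      intro v hv
      by_contra hne
      exact Ph_ne W hp v hne hv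
  have hex : ∀ p : Wᗮ, p ≠ 0 → ∃ q : (W × ℝ) × ℝ, 0 < q.2 ∧
      ∀ z : W × ℝ, (F (Ph W p (q.1 + q.2 • z)) ≤ 1 ↔ G (Ph W p z) ≤ 1) := by
    intro p hp
    obtain ⟨x, l, hx, hl, hr⟩ := hV (LinearMap.range (Ph W p)) (by rw [hfin p hp]; omega)
      (by rw [hfin p hp]; omega)
    obtain ⟨ξ, rfl⟩ := hx
    refine ⟨(ξ, l), hl, fun z => ?_⟩
    simp only [map_add, map_smul]
    exact hr _ ⟨z, rfl⟩
  choose! q hq0 hq using hex
  have huniq : ∀ p : Wᗮ, p ≠ 0 → ∀ (ξ : W × ℝ) (l : ℝ), 0 < l →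
      (∀ z : W × ℝ, (F (Ph W p (ξ + l • z)) ≤ 1 ↔ G (Ph W p z) ≤ 1)) → (q p).1 = ξ := by
    intro p hp ξ l hl h
    have g1 := hF.comp (Ph W p) (Ph_ne W hp)
    have g2 := hG.comp (Ph W p) (Ph_ne W hp)
    have r1 : Rel (fun v => F (Ph W p v)) (fun v => G (Ph W p v)) ⊤ (q p).1 (q p).2 :=
      ⟨Submodule.mem_top, hq0 p hp, fun z _ => hq p hp z⟩
    have r2 : Rel (fun v => F (Ph W p v)) (fun v => G (Ph W p v)) ⊤ ξ l :=
      ⟨Submodule.mem_top, hl, fun z _ => h z⟩
    exact (Rel.unique top_ne_bot g1 g2 r1 r2).1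
  have hcont : ∀ p : Wᗮ, p ≠ 0 → ContinuousAt (fun p => (q p).1) p := by
    intro p hp
    refine (family_cont hF hG (Ph W) (Ph_cont W) p (Ph_ne W hp) (fun p => (q p).1)
      (fun p => (q p).2) ?_).1
    filter_upwards [isOpen_ne.mem_nhds hp] with p' hp'
    exact ⟨hq0 p' hp', hq p' hp'⟩
  have hsph : ∀ p ∈ Metric.sphere (0 : Wᗮ) 1, p ≠ 0 := by
    intro p hp h0
    rw [h0, mem_sphere_zero_iff_norm, norm_zero] at hp
    norm_num at hp
  have hperp : Module.finrank ℝ W + Module.finrank ℝ Wᗮ = Module.finrank ℝ E :=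
    Submodule.finrank_add_finrank_orthogonal W
  have hrank : 1 < Module.rank ℝ Wᗮ := by
    rw [← Module.finrank_eq_rank]
    exact_mod_cast (by omega : 1 < Module.finrank ℝ Wᗮ)
  obtain ⟨p, hp, hp0⟩ := odd_zero hrank (fun p => (q p).1.2)
    (fun p hp => ((hcont p (hsph p hp)).snd).continuousWithinAt) (by
      intro p hp
      have hpne := hsph p hp
      have := huniq (-p) (neg_ne_zero.2 hpne) ((q p).1.1, -(q p).1.2) (q p).2 (hq0 p hpne) (by
        intro z
        have h1 := hq p hpne (z.1, -z.2)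
        have e1 : Ph W p ((q p).1 + (q p).2 • (z.1, -z.2)) =
            Ph W (-p) (((q p).1.1, -(q p).1.2) + (q p).2 • z) := by
          rw [Ph_apply, Ph_apply]
          simp
          module
        have e2 : Ph W p (z.1, -z.2) = Ph W (-p) z := by
          rw [Ph_apply, Ph_apply]
          simp
        rwa [e1, e2] at h1)
      simp only [this])
  have hpne := hsph p hp
  -- the translation part lies in `W`
  have hWrel : Rel F G W ((q p).1.1 : E) (q p).2 := by
    refine ⟨(q p).1.1.2, hq0 p hpne, fun z hz => ?_⟩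
    have h1 := hq p hpne (⟨z, hz⟩, 0)
    rw [Ph_apply, Ph_apply] at h1
    simp only [Prod.fst_add, Prod.snd_add, Prod.smul_mk, smul_zero, add_zero, zero_smul] at h1
    rw [hp0] at h1
    simpa using h1
  have hz := Rel.unique hWbot hF hG hWrel hW
  refine ⟨LinearMap.range (Ph W p), hfin p hpne, (q p).2, Submodule.zero_mem _, hq0 p hpne, ?_⟩
  rintro _ ⟨z, rfl⟩
  have h1 := hq p hpne z
  have hq1 : (q p).1 = 0 := by
    refine Prod.ext (Subtype.ext ?_) hp0
    exact hz.1
  rw [hq1, zero_add, map_smul] at h1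
  rw [zero_add]
  exact h1

end

/-- Module D1. -/
theorem hyper : HyperStmt := by
  intro E _ _ _ F G hF hG h3 hV
  have hP : Planar F G := Planar.of_sub h3 hV
  -- three independent vectors through a given one
  have hind3 : ∀ u : E, u ≠ 0 → ∃ w₁ w₂ : E, LinearIndependent ℝ ![u, w₁, w₂] := by
    intro u hu
    have h1 : LinearIndependent ℝ ![u] := by
      rw [linearIndependent_unique_iff]
      simpa using hu
    obtain ⟨w₁, hw₁⟩ := exists_linearIndependent_snoc_of_lt_finrank h1 (by omega)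
    obtain ⟨w₂, hw₂⟩ := exists_linearIndependent_snoc_of_lt_finrank hw₁ (by omega)
    refine ⟨w₁, w₂, ?_⟩
    have hvec : (![u, w₁, w₂] : Fin 3 → E) = Fin.snoc (Fin.snoc ![u] w₁ : Fin 2 → E) w₂ := by
      funext i
      fin_cases i <;> rfl
    rw [hvec]
    exact hw₂
  have hplane : ∀ u : E, u ≠ 0 → F u / G u = F (-u) / G (-u) →
      ∃ S : Submodule ℝ E, Module.finrank ℝ S = 2 ∧ u ∈ S ∧ ∃ l, Rel F G S 0 l := by
    intro u hu hr
    obtain ⟨w₁, w₂, hw⟩ := hind3 u hu
    obtain ⟨s, t, -, hli, c, hc⟩ := exists_cen hP hF hG hw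
    have hrel := hP.rel hli
    have huS : u ∈ Submodule.span ℝ {u, s • w₁ + t • w₂} := Submodule.subset_span (by simp)
    rw [hc] at hrel
    have hc0 := hrel.cen_zero hF hG hu huS hr
    rw [hc0, zero_smul] at hrel
    exact ⟨_, finrank_span_pair hli, huS, _, hrel⟩
  -- a symmetric direction
  have hsym : ∃ u : E, u ≠ 0 ∧ F u / G u = F (-u) / G (-u) := by
    have hrank : 1 < Module.rank ℝ E := by
      rw [← Module.finrank_eq_rank]
      exact_mod_cast (by omega : 1 < Module.finrank ℝ E)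
    have hsph : ∀ p ∈ Metric.sphere (0 : E) 1, p ≠ 0 := by
      intro p hp h0
      rw [h0, mem_sphere_zero_iff_norm, norm_zero] at hp
      norm_num at hp
    obtain ⟨u, hu, hu0⟩ := odd_zero hrank (fun u => F u / G u - F (-u) / G (-u)) (by
      intro p hp
      have hpne := hsph p hp
      apply ContinuousAt.continuousWithinAt
      apply ContinuousAt.sub
      · exact hF.cont.continuousAt.div hG.cont.continuousAt (hG.pos p hpne).ne'
      · apply ContinuousAt.div
        · exact (hF.cont.comp continuous_neg).continuousAt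
        · exact (hG.cont.comp continuous_neg).continuousAt
        · exact (hG.pos _ (neg_ne_zero.2 hpne)).ne') (by
      intro p _
      simp only [neg_neg]
      ring)
    exact ⟨u, hsph u hu, sub_eq_zero.1 hu0⟩
  have hall : ∀ k : ℕ, 2 ≤ k → k < Module.finrank ℝ E →
      ∃ W : Submodule ℝ E, Module.finrank ℝ W = k ∧ ∃ l, Rel F G W 0 l := by
    intro k hk
    induction k, hk using Nat.le_induction with
    | base =>
      intro _
      obtain ⟨u, hu, hur⟩ := hsym
      obtain ⟨S, hS, -, hl⟩ := hplane u hu hur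
      exact ⟨S, hS, hl⟩
    | succ k hk ih =>
      intro hlt
      obtain ⟨W, hWk, l₀, hW⟩ := ih (by omega)
      obtain ⟨W', hW', hl⟩ := exists_bigger hF hG hV W (by omega) (by omega) l₀ hW
      exact ⟨W', by omega, hl⟩
  obtain ⟨W, hWk, l, hW⟩ := hall (Module.finrank ℝ E - 1) (by omega) (by omega)
  have hl : 0 < l := hW.2.1
  have hperp : Module.finrank ℝ W + Module.finrank ℝ Wᗮ = Module.finrank ℝ E :=
    Submodule.finrank_add_finrank_orthogonal W
  have hperp1 : Module.finrank ℝ Wᗮ = 1 := by omega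
  obtain ⟨e, he0, hespan⟩ := finrank_eq_one_iff'.1 hperp1
  have he0' : (e : E) ≠ 0 := fun h => he0 (Subtype.ext h)
  have hWe : ∀ z : E, ⟪(e : E), z⟫ = 0 → z ∈ W := by
    intro z hz
    rw [← Submodule.orthogonal_orthogonal W, Submodule.mem_orthogonal]
    intro u hu
    obtain ⟨c, hc⟩ := hespan ⟨u, hu⟩
    have : u = c • (e : E) := by
      have := congrArg Subtype.val hc
      simpa using this.symm
    rw [this, inner_smul_left, hz, mul_zero]
  -- a plane with zero centre has ratio `1 / l`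
  have hconst : ∀ (S : Submodule ℝ E) (l' : ℝ), Module.finrank ℝ S = 2 → Rel F G S 0 l' →
      l' = l := by
    intro S l' hS hrel
    have hint : S ⊓ W ≠ ⊥ := by
      intro hbot
      have h1 := Submodule.finrank_sup_add_finrank_inf_eq S W
      rw [hbot, finrank_bot] at h1
      have h2 := Submodule.finrank_le (S ⊔ W)
      omega
    obtain ⟨z, hz, hz0⟩ := Submodule.exists_mem_ne_zero_of_ne_bot hint
    have h1 := hrel.zero_const hF hG hz.1
    have h2 := hW.zero_const hF hG hz.2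
    have h3 := hF.pos z hz0
    have h4 : l' * F z = l * F z := by rw [h1, h2]
    exact mul_right_cancel₀ h3.ne' h4
  have hratio : ∀ (S : Submodule ℝ E) (l' : ℝ), Module.finrank ℝ S = 2 → Rel F G S 0 l' →
      ∀ z ∈ S, F z = l⁻¹ * G z := by
    intro S l' hS hrel z hz
    have h1 := hconst S l' hS hrel
    subst h1
    have h2 := hrel.zero_const hF hG hz
    rw [← h2]
    field_simp
  refine ⟨e, l⁻¹, he0', inv_pos.2 hl, ?_, ?_, ?_⟩
  · intro z hz
    have h2 := hW.zero_const hF hG (hWe z hz)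
    rw [← h2]
    field_simp
  · intro u hu hr
    obtain ⟨S, hS, huS, l', hrel⟩ := hplane u hu hr
    have h1 := hratio S l' hS hrel u huS
    rw [h1]
    have := hG.pos u hu
    field_simp
  · intro v d hli hc z hz
    have hrel := hP.rel hli
    rw [hc] at hrel
    exact hratio _ _ (finrank_span_pair hli) hrel z hz

end Pool.Agent.H67.Star
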